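import Pool.Agent.Helper28.EP.ADefs

/-!
# MP_36e183_co, part A, block A1: the quadratic relation of the operators `D_k`
-/

set_option autoImplicit false

namespace Pool.Agent.EP

open MvPolynomial

variable {K : Type*} [Field K]

namespace A1

theorem e_zero : e K 0 = 1 := rfl

theorem e_neg {n : ℤ} (hn : n < 0) : e K n = 0 := by
  obtain ⟨m, rfl⟩ := Int.eq_negSucc_of_lt_zero hn
  rfl

theorem e_succ (n : ℕ) : e K ((n : ℤ) + 1) = X n := rfl

/-- Coefficients of the translation. -/
noncomputable def G (q t : K) (s : ℕ) : Lam K →ₗ[K] Lam K :=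
  ((Polynomial.lcoeff (Lam K) s).restrictScalars K) ∘ₗ (tr q t).toLinearMap

theorem G_apply (q t : K) (s : ℕ) (g : Lam K) : G q t s g = (tr q t g).coeff s := rfl

theorem G_mul (q t : K) (s : ℕ) (f g : Lam K) :
    G q t s (f * g) = ∑ p ∈ Finset.HasAntidiagonal.antidiagonal s, G q t p.1 f * G q t p.2 g := by
  simp only [G_apply, map_mul, Polynomial.coeff_mul]

theorem tr_X (q t : K) (n : ℕ) : tr q t (X n) =
    ∑ j ∈ Finset.range (n + 2), Polynomial.monomial j (C (om q t j) * e K ((n : ℤ) + 1 - j)) := by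
  rw [tr, aeval_X]

theorem G_e (q t : K) (s : ℕ) (n : ℤ) : G q t s (e K n) = om q t s • e K (n - s) := by
  rcases lt_trichotomy n 0 with h | h | h
  · rw [e_neg h, map_zero, e_neg (by omega), smul_zero]
  · subst h
    rw [e_zero, G_apply, map_one, Polynomial.coeff_one]
    split_ifs with h1
    · subst h1
      rw [Nat.cast_zero, sub_zero, e_zero, om, one_smul]
    · rw [e_neg (by omega), smul_zero]
  · obtain ⟨m, rfl⟩ : ∃ m : ℕ, n = (m : ℤ) + 1 := ⟨(n - 1).toNat, by omega⟩
    rw [e_succ, G_apply, tr_X, Polynomial.finsetSum_coeff]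
    simp only [Polynomial.coeff_monomial]
    rw [Finset.sum_ite_eq' (Finset.range (m + 2)) s]
    split_ifs with h1
    · rw [MvPolynomial.smul_eq_C_mul]
    · rw [Finset.mem_range] at h1
      rw [e_neg (by omega), smul_zero]

theorem G_C (q t : K) (s : ℕ) (a : K) : G q t s (C a) = if s = 0 then C a else 0 := by
  rw [G_apply, ← MvPolynomial.algebraMap_eq, AlgHom.commutes,
    IsScalarTower.algebraMap_apply K (Lam K) (Polynomial (Lam K)), Polynomial.algebraMap_eq,
    Polynomial.coeff_C]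

/-- The components of the translation commute. -/
theorem G_comm (q t : K) (g : Lam K) : ∀ a b : ℕ, G q t a (G q t b g) = G q t b (G q t a g) := by
  induction g using MvPolynomial.induction_on with
  | C c =>
    intro a b
    rw [G_C, G_C]
    split_ifs with h1 h2 h2
    · subst h1 h2; rfl
    · rw [G_C, if_neg h2, map_zero]
    · rw [G_C, if_neg h1, map_zero]
    · rw [map_zero, map_zero]
  | add p r hp hr =>
    intro a b
    simp only [map_add, hp a b, hr a b]
  | mul_X p n hp =>
    intro a b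
    have key : ∀ a b : ℕ, G q t a (G q t b (p * X n)) =
        ∑ x ∈ Finset.HasAntidiagonal.antidiagonal b, ∑ y ∈ Finset.HasAntidiagonal.antidiagonal a,
          G q t y.1 (G q t x.1 p) * ((om q t x.2 * om q t y.2) • e K ((n : ℤ) + 1 - x.2 - y.2)) := by
      intro a b
      rw [G_mul, map_sum]
      refine Finset.sum_congr rfl fun x _ => ?_
      rw [← e_succ, G_e, mul_smul_comm, map_smul, G_mul, Finset.smul_sum]
      refine Finset.sum_congr rfl fun y _ => ?_
      rw [G_e, mul_smul_comm, mul_smul_comm, smul_smul]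
    rw [key a b, key b a, Finset.sum_comm]
    refine Finset.sum_congr rfl fun y _ => Finset.sum_congr rfl fun x _ => ?_
    rw [hp, mul_comm (om q t x.2), sub_sub, sub_sub, add_comm (x.2 : ℤ)]

/-- A common bound for the degrees. -/
theorem exists_bound (q t : K) (g : Lam K) : ∃ M : ℕ, (∀ s, M ≤ s → G q t s g = 0) ∧
    ∀ b s, M ≤ s → G q t s (G q t b g) = 0 := by
  classical
  set d := (tr q t g).natDegree + 1 with hd
  set m := (Finset.range d).sup (fun b => (tr q t (G q t b g)).natDegree + 1) with hm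
  refine ⟨max d m, ?_, ?_⟩
  · intro s hs
    rw [G_apply]
    exact Polynomial.coeff_eq_zero_of_natDegree_lt (by omega)
  · intro b s hs
    by_cases hb : b < d
    · have h1 : (tr q t (G q t b g)).natDegree + 1 ≤ m :=
        Finset.le_sup (f := fun b => (tr q t (G q t b g)).natDegree + 1) (Finset.mem_range.2 hb)
      rw [G_apply]
      exact Polynomial.coeff_eq_zero_of_natDegree_lt (by omega)
    · have h2 : G q t b g = 0 := by
        rw [G_apply]
        exact Polynomial.coeff_eq_zero_of_natDegree_lt (by omega)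
      rw [h2, map_zero]

/-- The sum over a long range. -/
theorem sum_eq (q t : K) (g : Lam K) (k : ℤ) (R : ℕ) (hR : ∀ s, R ≤ s → G q t s g = 0) :
    ((tr q t g).sum fun s a => a * e K (k + s)) = ∑ s ∈ Finset.range R, G q t s g * e K (k + s) := by
  rw [Polynomial.sum_def]
  refine Finset.sum_subset ?_ ?_
  · intro s hs
    rw [Finset.mem_range]
    by_contra h
    exact (Polynomial.mem_support_iff.1 hs) (hR s (not_lt.1 h))
  · intro s _ hs
    rw [Polynomial.notMem_support_iff] at hs
    rw [hs, zero_mul]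

/-- The linear functional `w^s a ↦ a e_{j+s}`. -/
noncomputable def evL (j : ℤ) : Polynomial (Lam K) →ₗ[K] Lam K :=
  Polynomial.lsum fun s : ℕ => LinearMap.mulRight K (e K (j + s))

theorem evL_apply (j : ℤ) (Q : Polynomial (Lam K)) :
    evL j Q = Q.sum fun s a => a * e K (j + s) := rfl

theorem evL_monomial (j : ℤ) (s : ℕ) (a : Lam K) :
    evL j (Polynomial.monomial s a) = a * e K (j + s) := by
  rw [evL_apply, Polynomial.sum_monomial_index]
  exact zero_mul _

theorem evL_mul_monomial (j : ℤ) (s : ℕ) (a : Lam K) (Q : Polynomial (Lam K)) :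
    evL j (Q * Polynomial.monomial s a) = a * evL (j + s) Q := by
  induction Q using Polynomial.induction_on' with
  | add p r hp hr => rw [add_mul, map_add, map_add, hp, hr, mul_add]
  | monomial i b =>
    rw [Polynomial.monomial_mul_monomial, evL_monomial, evL_monomial, Nat.cast_add,
      add_comm (i : ℤ), ← add_assoc]
    ring

theorem tr_e (q t : K) (n : ℤ) (R : ℕ) (hR : n < R) : tr q t (e K n) =
    ∑ s ∈ Finset.range R, Polynomial.monomial s (om q t s • e K (n - s)) := by
  ext1 s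
  rw [← G_apply, G_e, Polynomial.finsetSum_coeff]
  simp only [Polynomial.coeff_monomial]
  rw [Finset.sum_ite_eq' (Finset.range R) s]
  split_ifs with h1
  · rfl
  · rw [Finset.mem_range] at h1
    rw [e_neg (by omega), smul_zero]

/-- The complete homogeneous polynomials in `q, t`. -/
noncomputable def hh (q t : K) (s : ℕ) : K := ∑ i ∈ Finset.range (s + 1), q ^ i * t ^ (s - i)

theorem hh_zero (q t : K) : hh q t 0 = 1 := by simp [hh]

theorem hh_succ (q t : K) (s : ℕ) : hh q t (s + 1) = t * hh q t s + q ^ (s + 1) := by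
  unfold hh
  rw [Finset.sum_range_succ, Finset.mul_sum, Nat.sub_self, pow_zero, mul_one]
  congr 1
  refine Finset.sum_congr rfl fun i hi => ?_
  rw [Finset.mem_range] at hi
  rw [show s + 1 - i = (s - i) + 1 by omega, pow_succ]
  ring

theorem hh_rec (q t : K) (s : ℕ) :
    hh q t (s + 2) - (q + t) * hh q t (s + 1) + q * t * hh q t s = 0 := by
  rw [hh_succ q t (s + 1), hh_succ q t s]
  ring

theorem om_succ (q t : K) (s : ℕ) : om q t (s + 1) = -((1 - q) * (1 - t) * hh q t s) := rfl

/-- The double sums. -/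
noncomputable def SS (q t : K) (g : Lam K) (M : ℕ) (A B : ℤ) : Lam K :=
  ∑ b ∈ Finset.range M, ∑ i ∈ Finset.range M, G q t i (G q t b g) * e K (A + i) * e K (B + b)

theorem SS_symm (q t : K) (g : Lam K) (M : ℕ) (A B : ℤ) : SS q t g M A B = SS q t g M B A := by
  unfold SS
  rw [Finset.sum_comm]
  refine Finset.sum_congr rfl fun i _ => Finset.sum_congr rfl fun b _ => ?_
  rw [G_comm]
  ring

theorem SS_zero (q t : K) (g : Lam K) (M : ℕ) (A B : ℤ) (h : B + M ≤ 0) :
    SS q t g M A B = 0 := by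
  refine Finset.sum_eq_zero fun b hb => Finset.sum_eq_zero fun i _ => ?_
  rw [Finset.mem_range] at hb
  have h1 : B + (b : ℤ) < 0 := by omega
  rw [e_neg h1, mul_zero]

theorem SS_D (q t : K)
    (hDt : ∀ (k : ℤ) (g : Lam K), Dt q t k g = (tr q t g).sum fun s a => a * e K (k + s))
    (g : Lam K) (M : ℕ) (hM2 : ∀ b s, M ≤ s → G q t s (G q t b g) = 0) (A B : ℤ) :
    SS q t g M A B = ∑ b ∈ Finset.range M, Dt q t A (G q t b g) * e K (B + b) := by
  refine Finset.sum_congr rfl fun b _ => ?_
  rw [hDt, sum_eq q t _ A M (hM2 b), Finset.sum_mul]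

/-- The product of two operators. -/
theorem DD (q t : K)
    (hDt : ∀ (k : ℤ) (g : Lam K), Dt q t k g = (tr q t g).sum fun s a => a * e K (k + s))
    (g : Lam K) (M : ℕ) (hM1 : ∀ s, M ≤ s → G q t s g = 0)
    (hM2 : ∀ b s, M ≤ s → G q t s (G q t b g) = 0) (j k : ℤ) (R : ℕ) (hR : k + M ≤ R) :
    Dt q t j (Dt q t k g) = ∑ s ∈ Finset.range R, om q t s • SS q t g M (j + s) (k - s) := by
  have h1 : ∀ b ∈ Finset.range M, Dt q t j (G q t b g * e K (k + b)) =
      ∑ s ∈ Finset.range R, om q t s • (Dt q t (j + s) (G q t b g) * e K (k - s + b)) := by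
    intro b hb
    rw [Finset.mem_range] at hb
    have h2 : k + (b : ℤ) < R := by omega
    rw [hDt, ← evL_apply, map_mul, tr_e q t (k + b) R h2, Finset.mul_sum, map_sum]
    refine Finset.sum_congr rfl fun s _ => ?_
    have h3 : k - (s : ℤ) + b = k + b - s := by ring
    rw [evL_mul_monomial, hDt, ← evL_apply, smul_mul_assoc, mul_comm, h3]
  rw [hDt k g, sum_eq q t g k M hM1, map_sum, Finset.sum_congr rfl h1, Finset.sum_comm]
  refine Finset.sum_congr rfl fun s _ => ?_
  rw [SS_D q t hDt g M hM2, Finset.smul_sum]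

/-- The generating series. -/
noncomputable def cc (q t : K) (f : ℤ → Lam K) (B : ℤ) (a : ℤ) : Lam K :=
  ∑ s ∈ Finset.range (B - a).toNat, hh q t s • f (a + s)

theorem cc_eq (q t : K) (f : ℤ → Lam K) (B : ℤ) (hf : ∀ a, B ≤ a → f a = 0) (a : ℤ) (R : ℕ)
    (hR : B - a ≤ R) : cc q t f B a = ∑ s ∈ Finset.range R, hh q t s • f (a + s) := by
  refine (Finset.eventually_constant_sum (fun s hs => ?_) (by omega)).symm
  have h1 : B ≤ a + (s : ℤ) := by omega
  rw [hf _ h1, smul_zero]

theorem cc_rec (q t : K) (f : ℤ → Lam K) (B : ℤ) (hf : ∀ a, B ≤ a → f a = 0) (a : ℤ) :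
    cc q t f B a - (q + t) • cc q t f B (a + 1) + (q * t) • cc q t f B (a + 2) = f a := by
  obtain ⟨R, hR⟩ : ∃ R : ℕ, B - a ≤ R := ⟨_, Int.self_le_toNat _⟩
  rw [cc_eq q t f B hf a (R + 2) (by push_cast; omega),
    cc_eq q t f B hf (a + 1) (R + 1) (by push_cast; omega),
    cc_eq q t f B hf (a + 2) R (by omega), Finset.sum_range_succ' _ (R + 1),
    Finset.sum_range_succ' _ R, Finset.sum_range_succ' _ R]
  have h1 : ∀ s ∈ Finset.range R, hh q t (s + 1 + 1) • f (a + ((s + 1 + 1 : ℕ) : ℤ)) =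
      (q + t) • (hh q t (s + 1) • f (a + 1 + ((s + 1 : ℕ) : ℤ))) -
        (q * t) • (hh q t s • f (a + 2 + (s : ℤ))) := by
    intro s _
    have e1 : a + ((s + 1 + 1 : ℕ) : ℤ) = a + 2 + s := by push_cast; ring
    have e2 : a + 1 + ((s + 1 : ℕ) : ℤ) = a + 2 + s := by push_cast; ring
    rw [e1, e2, smul_smul, smul_smul, ← sub_smul]
    congr 1
    linear_combination hh_rec q t s
  rw [Finset.sum_congr rfl h1, Finset.sum_sub_distrib, ← Finset.smul_sum, ← Finset.smul_sum]
  have e3 : a + ((0 + 1 : ℕ) : ℤ) = a + 1 := by push_cast; ring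
  have e4 : hh q t (0 + 1) = q + t := by rw [hh_succ, hh_zero]; ring
  rw [e3, e4, hh_zero, Nat.cast_zero, add_zero, add_zero, one_smul, one_smul, smul_add]
  abel

end A1

open A1

/-- Hypothesis `hDt` is the first theorem of block A0. -/
theorem DQ (q t : K)
    (hDt : ∀ (k : ℤ) (g : Lam K), Dt q t k g = (tr q t g).sum fun s a => a * e K (k + s))
    (g : Lam K) (N : ℤ) :
    ∃ c : ℤ → Lam K, (∃ B : ℤ, ∀ a, B < a → c a = 0) ∧
      (∀ a, Dt q t a (Dt q t (N - a) g) =
        c a - (1 + q * t) • c (a + 1) + (q * t) • c (a + 2)) ∧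
      (∀ a, c a - (q + t) • c (a + 1) + (q * t) • c (a + 2) =
        c (N - a) - (q + t) • c (N - a + 1) + (q * t) • c (N - a + 2)) := by
  obtain ⟨M, hM1, hM2⟩ := exists_bound q t g
  obtain ⟨f, hf⟩ : ∃ f : ℤ → Lam K, ∀ a, f a = SS q t g M a (N - a) := ⟨_, fun _ => rfl⟩
  have hfsymm : ∀ a, f (N - a) = f a := by
    intro a
    rw [hf, hf, sub_sub_cancel, SS_symm]
  have hfzero : ∀ a, N + M ≤ a → f a = 0 := fun a ha => by
    rw [hf]
    exact SS_zero q t g M _ _ (by omega)
  refine ⟨cc q t f (N + M), ⟨N + M, fun a ha => ?_⟩, fun a => ?_, fun a => ?_⟩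
  · rw [cc_eq q t f _ hfzero a 0 (by push_cast; omega), Finset.sum_range_zero]
  · obtain ⟨R, hR⟩ : ∃ R : ℕ, N + M - a ≤ R := ⟨_, Int.self_le_toNat _⟩
    have h1 : cc q t f (N + M) a - (1 + q * t) • cc q t f (N + M) (a + 1) +
        (q * t) • cc q t f (N + M) (a + 2) =
        f a - ((1 - q) * (1 - t)) • cc q t f (N + M) (a + 1) := by
      have e0 := cc_rec q t f (N + M) hfzero a
      have e1 : (1 - q) * (1 - t) = 1 + q * t - (q + t) := by ring
      rw [← e0, e1, sub_smul]
      abel
    rw [h1, DD q t hDt g M hM1 hM2 a (N - a) (R + 1) (by push_cast; omega),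
      Finset.sum_range_succ', cc_eq q t f _ hfzero (a + 1) R (by omega), Finset.smul_sum]
    have h2 : ∀ s ∈ Finset.range R, om q t (s + 1) • SS q t g M (a + ((s + 1 : ℕ) : ℤ))
        (N - a - ((s + 1 : ℕ) : ℤ)) = -(((1 - q) * (1 - t)) • (hh q t s • f (a + 1 + (s : ℤ)))) := by
      intro s _
      have e1 : a + ((s + 1 : ℕ) : ℤ) = a + 1 + s := by push_cast; ring
      have e2 : N - a - ((s + 1 : ℕ) : ℤ) = N - (a + 1 + s) := by push_cast; ring
      rw [e1, e2, ← hf, om_succ, smul_smul, neg_smul]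
    have e5 : om q t 0 = 1 := rfl
    rw [Finset.sum_congr rfl h2, Finset.sum_neg_distrib, Nat.cast_zero, add_zero, sub_zero,
      e5, one_smul, ← hf]
    abel
  · rw [cc_rec q t f _ hfzero a, cc_rec q t f _ hfzero (N - a), hfsymm]

end Pool.Agent.EP
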